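import Pool.Agent.Q132.FU.E

/-!
# Furstenberg systems of multiplicative functions with values `1` and `-1`: criteria on the coordinates
with indices divisible by a prime

`SignMul f` (`Pool.Agent.W257.FS.D`): `f 1 = 1`, `f (m n) = f m f n` for coprime `m, n`, and
`f n ∈ {1, -1}` for `n ≥ 1`.  `IsFurst f μ` (`Pool.Agent.W257.FS.G`): the probability measure `μ` on
`ℤ → ℝ` is a Furstenberg system of `f` (logarithmic averages).  `bern` (`Pool.Agent.W257.FS.F`): the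
law of independent fair signs.  `co q C s x = ∏_{c ∈ C} x (q (c + s))`, `sub q x = (x (q k))_k`
(`Pool.Agent.Q132.FU.D`).  `pc f q C l N = (1 / log N) ∑_{n ≤ N} ∏_{c ∈ C} f (n + q c) f (n + q (c + l)) / n`
(`Pool.Agent.Q132.FU.E`).
-/

set_option autoImplicit false

namespace Pool.Agent.Results.MP_4a7640_nt.OneSidedCriterion

open Finset Filter MeasureTheory Pool.Agent.W257.FS Q132.FU

/-- for every finite set `C` and every `δ > 0` there are arbitrarily large primes `q` and at least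
`q / δ` translates whose pair correlations, seen in the coordinates with indices divisible by `q`, are
at most `δ / q` -/
def OneSided (μ : Measure (ℤ → ℝ)) : Prop :=
  ∀ C : Finset ℕ, C.Nonempty → ∀ δ : ℝ, 0 < δ → ∀ Q : ℕ, ∃ q, Q ≤ q ∧ q.Prime ∧
    ∃ T : Finset ℕ, q ≤ δ * #T ∧ ∀ s ∈ T, ∀ t ∈ T, s < t →
      q * ∫ x, co q C 0 x * co q C (t - s) x ∂μ ≤ δ

/-- (1) the bound; (2), (3), (4) three criteria for one Furstenberg system; (5), (6) two criteria for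
uniqueness -/
theorem result {f : ℕ → ℝ} (hf : SignMul f) :
    (∀ μ, IsFurst f μ →
      (∀ (C T : Finset ℕ) (q : ℕ), q.Prime → T.Nonempty → |∫ x, ∏ c ∈ C, x (c : ℤ) ∂μ| ≤
        2 * #C / q + √(q * ∫ x, ((∑ s ∈ T, co q C s x) / #T) ^ 2 ∂μ)) ∧
      (μ = bern ↔ OneSided μ) ∧
      (∀ (P : Set ℕ) (S : Finset ℕ → ℕ → Set ℕ), P.Infinite → (∀ p ∈ P, p.Prime) →
        (∀ C q, (S C q).Infinite) → (μ = bern ↔ ∀ C : Finset ℕ, C.Nonempty → ∀ q ∈ P,
          ∀ s ∈ S C q, ∀ t ∈ S C q, s < t → ∫ x, co q C 0 x * co q C (t - s) x ∂μ ≤ 0)) ∧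
      (μ = bern ↔ ∀ Q : ℕ, ∃ q, Q ≤ q ∧ q.Prime ∧ μ.map (sub q) = bern)) ∧
    ((∀ μ, IsFurst f μ ↔ μ = bern) ↔ ∀ μ, IsFurst f μ → OneSided μ) ∧
    ((∀ μ, IsFurst f μ ↔ μ = bern) ↔
      ∀ C : Finset ℕ, C.Nonempty → ∀ δ : ℝ, 0 < δ → ∀ Q : ℕ, ∃ q, Q ≤ q ∧ q.Prime ∧
        ∃ T : Finset ℕ, q ≤ δ * #T ∧ ∀ s ∈ T, ∀ t ∈ T, s < t →
          ∀ᶠ N in atTop, q * pc f q C (t - s) N ≤ δ) := by
  have hbern : OneSided bern := by
    intro C hC δ hδ Q
    obtain ⟨q, hQ, hq⟩ := Nat.exists_infinite_primes Q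
    obtain ⟨M, hM⟩ := exists_nat_ge ((q : ℝ) / δ)
    refine ⟨q, hQ, hq, range M, ?_, fun s _ t _ hst => ?_⟩
    · rw [card_range]
      rw [div_le_iff₀ hδ] at hM
      linarith
    · rw [bern_pair hC hq.one_lt.le (by omega), mul_zero]
      exact hδ.le
  refine ⟨fun μ hμ => ⟨fun C T q hq hT => furst_bound hf hμ C hq hT,
    ⟨?_, fun h => furst_crit hf hμ h⟩, fun P S hP hPp hS => ⟨?_, fun h => ?_⟩, ⟨?_, fun h => ?_⟩⟩, ?_, fun_crit hf⟩
  · rintro rfl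
    exact hbern
  · rintro rfl C hC q hq s _ t _ hst
    exact (bern_pair hC (hPp q hq).one_lt.le (by omega)).le
  · refine furst_crit hf hμ fun C hC δ hδ Q => ?_
    obtain ⟨q, hqP, hQq⟩ := hP.exists_gt Q
    obtain ⟨M, hM⟩ := exists_nat_ge ((q : ℝ) / δ)
    obtain ⟨T, hTS, hTc⟩ := (hS C q).exists_subset_card_eq M
    refine ⟨q, hQq.le, hPp q hqP, T, ?_, fun s hs t ht hst => ?_⟩
    · rw [hTc]
      rw [div_le_iff₀ hδ] at hM
      linarith
    · refine le_trans ?_ hδ.le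
      exact mul_nonpos_of_nonneg_of_nonpos (Nat.cast_nonneg _) (h C hC q hqP s (hTS hs) t (hTS ht) hst)
  · rintro rfl Q
    obtain ⟨q, hQ, hq⟩ := Nat.exists_infinite_primes Q
    exact ⟨q, hQ, hq, bern_sub hq.one_lt.le⟩
  · refine furst_crit hf hμ fun C hC δ hδ Q => ?_
    obtain ⟨q, hQ, hq, hs⟩ := h Q
    obtain ⟨M, hM⟩ := exists_nat_ge ((q : ℝ) / δ)
    refine ⟨q, hQ, hq, range M, ?_, fun s _ t _ hst => ?_⟩
    · rw [card_range]
      rw [div_le_iff₀ hδ] at hM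
      linarith
    · rw [pair_of_sub hq.one_lt.le hs hC (by omega), mul_zero]
      exact hδ.le
  · rw [unique_iff hf]
    refine ⟨fun h μ hμ => ?_, fun h μ hμ => furst_crit hf hμ (h μ hμ)⟩
    rw [h μ hμ]
    exact hbern

end Pool.Agent.Results.MP_4a7640_nt.OneSidedCriterion
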