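import Pool.Agent.Q241.LG.Fin
import Pool.Agent.Q132.FU.E

set_option autoImplicit false

/-!
# Which orders decide that a Furstenberg system is the Bernoulli system

`SignMul f` (`Pool.Agent.W257.FS.D`): `f 1 = 1`, `f (m n) = f m f n` for coprime `m, n`, and `f n ∈ {1, -1}` for
`n ≥ 1`.  `IsFurst f μ` (`Pool.Agent.W257.FS.G`): the probability measure `μ` on `ℤ → ℝ` is a Furstenberg system of
`f` (logarithmic averages).  `bern` (`Pool.Agent.W257.FS.F`): the law of independent fair signs.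
-/

open Filter Topology MeasureTheory
open Pool.Agent.W257.FS (SignMul IsFurst bern)

namespace Pool.Agent.Results.MP_4a7640_nt.OrdersThatSuffice

/-- the logarithmic correlation of `f` at the shifts in `H` -/
noncomputable def corr (f : ℕ → ℝ) (H : Finset ℕ) (N : ℕ) : ℝ :=
  (∑ n ∈ Finset.Icc 1 N, (∏ h ∈ H, f (n + h)) / n) / Real.log N

/-- The condition: `m` is in `K`, or `K` contains a multiple of `2 * m`, or the sum of the inverses of the
elements of `K` divisible by `m` diverges. -/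
def Suffices (K : Set ℕ) (m : ℕ) : Prop :=
  m ∈ K ∨ (∃ k ∈ K, 2 * m ∣ k) ∨ ¬ Summable (fun k : {k : ℕ // k ∈ K ∧ m ∣ k} => 1 / ((k : ℕ) : ℝ))

/-- orders and correlations, along a sequence -/
lemma gord_iff {I : Type*} {l : Filter I} (N : I → ℕ) (g : ℕ → ℝ) (k : ℕ) :
    Q241LG.GOrd l (Q241LG.lS N) (Q241LG.lw N) {1} 1 g k ↔
      ∀ H : Finset ℕ, H.card = k → Tendsto (fun i => corr g H (N i)) l (𝓝 0) := by
  classical
  rw [Q241LG.gord_log_iff]
  constructor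
  · intro h H hH
    have h1 := h k (fun i => (H.orderEmbOfFin hH i)) (H.orderEmbOfFin hH).injective (fun _ => 1) (fun _ => rfl) (by simp)
    refine h1.congr fun i => ?_
    unfold Q241LG.la corr
    congr 1
    refine Finset.sum_congr rfl fun n _ => ?_
    congr 1
    have e : H = Finset.univ.image (fun i => H.orderEmbOfFin hH i) := by
      rw [Finset.image_orderEmbOfFin_univ]
    conv_rhs => rw [e, Finset.prod_image fun i _ j _ hij => (H.orderEmbOfFin hH).injective hij]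
    exact Finset.prod_congr rfl fun i _ => by rw [pow_one, one_mul]
  · intro h r c hc ε hε hcard
    have hε1 : ∀ i, ε i = 1 := fun i => by simpa using hε i
    have h1 := h (Finset.univ.image c) (by
      rw [Finset.card_image_of_injective _ hc, ← hcard]
      congr 1
      ext i
      simp [hε1 i])
    refine h1.congr fun i => ?_
    unfold Q241LG.la corr
    congr 1
    refine Finset.sum_congr rfl fun n _ => ?_
    congr 1
    rw [Finset.prod_image fun i _ j _ hij => hc hij]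
    exact Finset.prod_congr rfl fun i _ => by rw [hε1, pow_one, one_mul]

/-- the correlations along the sequence of a Furstenberg system -/
lemma corr_furst {f : ℕ → ℝ} (hf : SignMul f) {μ : Measure (ℤ → ℝ)} [IsProbabilityMeasure μ] {N : ℕ → ℕ}
    (hN : Tendsto N atTop atTop) (hlim : ∀ F : (ℤ → ℝ) → ℝ, Continuous F → (∃ C, ∀ x, |F x| ≤ C) →
      Tendsto (fun i => Pool.Agent.W257.FS.logAvg f F (N i)) atTop (𝓝 (∫ x, F x ∂μ))) (H : Finset ℕ) :
    Tendsto (fun i => corr (Q132.FU.fix f) H (N i)) atTop (𝓝 (∫ x, ∏ h ∈ H, x (h : ℤ) ∂μ)) := by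
  have h1 := hlim (Q132.FU.cf 1 H 0) (Q132.FU.cf_cont 1 H 0) ⟨1, Q132.FU.cf_abs 1 H 0⟩
  have h2 : ∫ x, ∏ c ∈ H, x (c : ℤ) ∂μ = ∫ x, Q132.FU.cf 1 H 0 x ∂μ := by
    apply integral_congr_ae
    filter_upwards [Q132.FU.ae_pm hN hlim (Ultrafilter.of (map N atTop)) (Ultrafilter.of_le _) hf] with x hx
    rw [← Q132.FU.cf_co hx]
    unfold Q132.FU.co
    refine Finset.prod_congr rfl fun c _ => ?_
    rw [one_mul, add_zero]
  rw [h2]
  refine h1.congr fun i => ?_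
  unfold Pool.Agent.W257.FS.logAvg corr
  congr 1
  refine Finset.sum_congr rfl fun n hn => ?_
  rw [Q132.FU.cf_xf hf 1 H 0 (Finset.mem_Icc.1 hn).1]
  simp

lemma fix_abs {f : ℕ → ℝ} (hf : SignMul f) (n : ℕ) : |Q132.FU.fix f n| ≤ 1 := by
  rcases Q132.FU.fix_or hf n with h | h <;> rw [h] <;> simp

/-- sufficiency along a sequence -/
lemma suff_corr {I : Type*} {l : Filter I} {N : I → ℕ} (hN : Tendsto N l atTop) {g : ℕ → ℝ} (hg : ∀ n, |g n| ≤ 1)
    (K : Set ℕ) (hK : ∀ k ∈ K, 1 ≤ k) (m : ℕ) (hm : 1 ≤ m) (hS : Suffices K m)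
    (h : ∀ H : Finset ℕ, H.card ∈ K → Tendsto (fun i => corr g H (N i)) l (𝓝 0)) :
    ∀ H : Finset ℕ, H.card = m → Tendsto (fun i => corr g H (N i)) l (𝓝 0) :=
  (gord_iff N g m).1 (Q241LG.gsuff (Q241LG.isMean_log _ hN) K hK m hm hS {1} 1 le_rfl g hg
    fun k hk => (gord_iff N g k).2 fun H hH => h H (by rw [hH]; exact hk))

lemma corr_eq (f : ℕ → ℝ) (H : Finset ℕ) (N : ℕ) : corr (Q132.FU.fix f) H N = corr f H N := by
  unfold corr
  congr 1
  refine Finset.sum_congr rfl fun n hn => ?_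
  congr 1
  refine Finset.prod_congr rfl fun h _ => Q132.FU.fix_pos ?_
  have := (Finset.mem_Icc.1 hn).1
  omega

/-- one Furstenberg system: one order -/
lemma furst_suff {f : ℕ → ℝ} (hf : SignMul f) {μ : Measure (ℤ → ℝ)} (hμ : IsFurst f μ) (K : Set ℕ)
    (hK : ∀ k ∈ K, 1 ≤ k) (m : ℕ) (hm : 1 ≤ m) (hS : Suffices K m)
    (h : ∀ H : Finset ℕ, H.card ∈ K → ∫ x, ∏ c ∈ H, x (c : ℤ) ∂μ = 0) :
    ∀ H : Finset ℕ, H.card = m → ∫ x, ∏ c ∈ H, x (c : ℤ) ∂μ = 0 := by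
  obtain ⟨hp, N, hN, hlim⟩ := hμ
  intro H hH
  have h1 := suff_corr hN (fix_abs hf) K hK m hm hS (fun H' hH' => by
    rw [← h H' hH']
    exact corr_furst hf hN hlim H') H hH
  exact tendsto_nhds_unique (corr_furst hf hN hlim H) h1

/-- vanishing moments of all the orders: the Bernoulli system -/
lemma furst_bern {f : ℕ → ℝ} (hf : SignMul f) {μ : Measure (ℤ → ℝ)} (hμ : IsFurst f μ)
    (h : ∀ H : Finset ℕ, H.Nonempty → ∫ x, ∏ c ∈ H, x (c : ℤ) ∂μ = 0) : μ = bern := by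
  obtain ⟨hμp, N, hN, hlim⟩ := hμ
  have h1 : ∀ C : Finset ℕ, C.Nonempty → Tendsto (Pool.Agent.TH668.Gen.Corr (Q132.FU.fix f) C) (map N atTop) (𝓝 0) := by
    intro C hC
    rw [tendsto_map'_iff, ← h C hC]
    exact corr_furst hf hN hlim C
  apply ext_of_forall_integral_eq_of_IsFiniteMeasure
  intro F
  have hb : ∃ C, ∀ x, |F x| ≤ C := ⟨‖F‖, fun x => by
    rw [← Real.norm_eq_abs]; exact F.norm_coe_le_norm x⟩
  have h4 := Q132.FU.weak_of_corr (Q132.FU.fix_sign hf) (Q132.FU.fix_or hf) hN h1 F F.continuous hb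
  have h5 : Tendsto (fun i => Pool.Agent.W257.FS.logAvg (Q132.FU.fix f) F (N i)) atTop (𝓝 (∫ x, F x ∂bern)) :=
    tendsto_map'_iff.1 h4
  simp only [Q132.FU.logAvg_fix] at h5
  exact tendsto_nhds_unique (hlim F F.continuous hb) h5

lemma bern_moment (H : Finset ℕ) (hH : H.Nonempty) : ∫ x, ∏ c ∈ H, x (c : ℤ) ∂bern = 0 := by
  rw [← Pool.Agent.TH668.Gen.int_FH hH]
  apply integral_congr_ae
  filter_upwards [Pool.Agent.W257.FS.bern_ae] with x hx
  unfold Pool.Agent.TH668.Gen.FH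
  refine Finset.prod_congr rfl fun h _ => (Pool.Agent.TH668.Gen.cl_or ?_).symm
  rcases hx h with h1 | h1 <;> rw [h1] <;> simp

/-- vanishing correlations of all the orders: every Furstenberg system is the Bernoulli system -/
lemma unique_of_corr {f : ℕ → ℝ} (hf : SignMul f)
    (h : ∀ H : Finset ℕ, H.Nonempty → Tendsto (corr f H) atTop (𝓝 0)) : ∀ μ, IsFurst f μ → μ = bern := by
  intro μ hμ
  refine furst_bern hf hμ fun H hH => ?_
  obtain ⟨hp, N, hN, hlim⟩ := hμ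
  refine tendsto_nhds_unique (corr_furst hf hN hlim H) ?_
  simp_rw [corr_eq]
  exact (h H hH).comp hN

/-- **Necessity**. -/
lemma nec (K : Set ℕ) (hK : ∀ k ∈ K, 1 ≤ k) (m : ℕ) (hm : 1 ≤ m) (hS : ¬ Suffices K m) :
    ∃ g : ℕ → ℝ, (∀ n, g n = 1 ∨ g n = -1) ∧
      (∀ H : Finset ℕ, H.card ∈ K → Tendsto (corr g H) atTop (𝓝 0)) ∧
      (∃ η : ℝ, 0 < η ∧ ∀ᶠ N : ℕ in atTop, η ≤ corr g (Finset.range m) N) ∧ ∀ μ, IsFurst g μ → μ ≠ bern := by
  obtain ⟨g, hg, hgK, δ, hδ, hlow⟩ := Q241LG.exists_signs K hK m hm hS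
  have hg1 : ∀ n, |g n| ≤ 1 := fun n => by rcases hg n with h | h <;> rw [h] <;> simp
  have hu : ∀ n, |∏ i : Fin m, g (n + i)| ≤ 1 := fun n => by
    rw [Finset.abs_prod]
    exact Finset.prod_le_one (fun _ _ => abs_nonneg _) fun _ _ => hg1 _
  have hcorr : ∀ N, corr g (Finset.range m) N = Q241LG.la (fun n => ∏ i : Fin m, g (n + i)) N := by
    intro N
    unfold corr Q241LG.la
    congr 1
    refine Finset.sum_congr rfl fun n _ => ?_
    rw [Finset.prod_range]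
  have hη : ∀ᶠ N : ℕ in atTop, δ / 4 ≤ corr g (Finset.range m) N := by
    filter_upwards [Q241LG.log_lower _ hu hδ hlow] with N h
    rw [hcorr]
    exact h
  refine ⟨g, hg, fun H hH => ?_, ⟨δ / 4, by positivity, hη⟩, fun μ hμ hb => ?_⟩
  · have h1 : Q241LG.GOrd atTop (Q241LG.lS fun N : ℕ => N) (Q241LG.lw fun N : ℕ => N) {1} 1 g H.card := by
      rw [Q241LG.gord_log_iff]
      intro r c hc ε hε hcard
      have hε1 : ∀ i, ε i = 1 := fun i => by simpa using hε i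
      have hr : r = H.card := by
        rw [← hcard]
        simp [hε1]
      subst hr
      refine Q241LG.la_of_cesaro _ _ ?_
      simp only [hε1, pow_one]
      exact hgK _ hH 1 le_rfl c hc
    exact (gord_iff _ g H.card).1 h1 H rfl
  · rw [hb] at hμ
    obtain ⟨-, N, hN, hlim⟩ := hμ
    have hne : (Finset.range m).Nonempty := Finset.nonempty_range_iff.2 (by omega)
    have h1 := hlim (Pool.Agent.TH668.Gen.FH (Finset.range m)) (Pool.Agent.TH668.Gen.FH_cont _)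
      ⟨1, Pool.Agent.TH668.Gen.FH_abs _⟩
    rw [Pool.Agent.TH668.Gen.int_FH hne] at h1
    have h2 : Tendsto (fun i => corr g (Finset.range m) (N i)) atTop (𝓝 0) :=
      h1.congr fun i => Pool.Agent.TH668.Gen.logAvg_FH hg (Finset.range m) (N i)
    obtain ⟨i, h3, h4⟩ := ((h2.eventually_lt_const (show (0:ℝ) < δ / 4 by positivity)).and (hN.eventually hη)).exists
    linarith

lemma suffices_mult (M : ℕ) (hM : 1 ≤ M) (m : ℕ) (hm : 1 ≤ m) : Suffices {k | 1 ≤ k ∧ M ∣ k} m :=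
  Or.inr (Or.inl ⟨2 * m * M, ⟨Nat.mul_pos (by omega) hM, Dvd.intro_left _ rfl⟩, Dvd.intro _ rfl⟩)

lemma suffices_fact (m : ℕ) (hm : 1 ≤ m) : Suffices {k | ∃ j : ℕ, 1 ≤ j ∧ k = 2 * j.factorial} m :=
  Or.inr (Or.inl ⟨2 * m.factorial, ⟨m, hm, rfl⟩, Nat.mul_dvd_mul_left 2 (Nat.dvd_factorial hm le_rfl)⟩)

lemma not_odd (m : ℕ) (hm : 1 ≤ m) (he : Even m) : ¬ Suffices {k | 1 ≤ k ∧ (Odd k ∨ k < m)} m := by
  rintro (⟨_, h | h⟩ | ⟨k, ⟨hk, h | h⟩, d, hd⟩ | h)
  · exact (Nat.not_odd_iff_even.2 he) h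
  · exact lt_irrefl _ h
  · apply (Nat.not_odd_iff_even.2 ?_) h
    rw [hd, mul_assoc]
    exact even_two_mul _
  · rcases Nat.eq_zero_or_pos d with h0 | h0
    · rw [h0, mul_zero] at hd; omega
    · have : 2 * m * 1 ≤ 2 * m * d := Nat.mul_le_mul_left _ h0
      omega
  · apply h
    have : IsEmpty {k : ℕ // k ∈ {k | 1 ≤ k ∧ (Odd k ∨ k < m)} ∧ m ∣ k} := by
      refine ⟨fun ⟨k, ⟨hk, h1⟩, hmk⟩ => ?_⟩
      rcases h1 with h1 | h1
      · exact (Nat.not_odd_iff_even.2 (he.trans_dvd hmk)) h1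
      · exact absurd (Nat.le_of_dvd hk hmk) (by omega)
    exact summable_empty

/-- **Which orders decide that a Furstenberg system is the Bernoulli system.** -/
theorem result :
    -- one order of one Furstenberg system of a multiplicative function
    (∀ K : Set ℕ, (∀ k ∈ K, 1 ≤ k) → ∀ m, 1 ≤ m → Suffices K m →
      ∀ f, SignMul f → ∀ μ, IsFurst f μ → (∀ H : Finset ℕ, H.card ∈ K → ∫ x, ∏ h ∈ H, x (h : ℤ) ∂μ = 0) →
        ∀ H : Finset ℕ, H.card = m → ∫ x, ∏ h ∈ H, x (h : ℤ) ∂μ = 0) ∧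
    -- one Furstenberg system of a multiplicative function
    (∀ K : Set ℕ, (∀ k ∈ K, 1 ≤ k) → (∀ m, 1 ≤ m → Suffices K m) → ∀ f, SignMul f → ∀ μ, IsFurst f μ →
      (μ = bern ↔ ∀ H : Finset ℕ, H.card ∈ K → ∫ x, ∏ h ∈ H, x (h : ℤ) ∂μ = 0)) ∧
    -- uniqueness of the Furstenberg system, and its being the Bernoulli system
    (∀ K : Set ℕ, (∀ k ∈ K, 1 ≤ k) → (∀ m, 1 ≤ m → Suffices K m) → ∀ f, SignMul f →
      ((∀ μ, IsFurst f μ ↔ μ = bern) ↔ ∀ H : Finset ℕ, H.card ∈ K → Tendsto (corr f H) atTop (𝓝 0))) ∧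
    (∀ M, 1 ≤ M → ∀ f, SignMul f → ((∀ μ, IsFurst f μ ↔ μ = bern) ↔
      ∀ H : Finset ℕ, H.Nonempty → M ∣ H.card → Tendsto (corr f H) atTop (𝓝 0))) ∧
    (∀ f, SignMul f → ((∀ μ, IsFurst f μ ↔ μ = bern) ↔
      ∀ j, 1 ≤ j → ∀ H : Finset ℕ, H.card = 2 * j.factorial → Tendsto (corr f H) atTop (𝓝 0))) ∧
    -- the condition is necessary in the class of all sequences of signs
    (∀ K : Set ℕ, (∀ k ∈ K, 1 ≤ k) → ∀ m, 1 ≤ m → ¬ Suffices K m →
      ∃ g : ℕ → ℝ, (∀ n, g n = 1 ∨ g n = -1) ∧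
        (∀ H : Finset ℕ, H.card ∈ K → Tendsto (corr g H) atTop (𝓝 0)) ∧
        (∃ η : ℝ, 0 < η ∧ ∀ᶠ N : ℕ in atTop, η ≤ corr g (Finset.range m) N) ∧ ∀ μ, IsFurst g μ → μ ≠ bern) ∧
    -- the odd orders and the orders smaller than `m` do not imply the even order `m`
    (∀ m, 1 ≤ m → Even m → ∃ g : ℕ → ℝ, (∀ n, g n = 1 ∨ g n = -1) ∧
      (∀ H : Finset ℕ, H.Nonempty → (Odd H.card ∨ H.card < m) → Tendsto (corr g H) atTop (𝓝 0)) ∧
      (∃ η : ℝ, 0 < η ∧ ∀ᶠ N : ℕ in atTop, η ≤ corr g (Finset.range m) N) ∧ ∀ μ, IsFurst g μ → μ ≠ bern) := by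
  have hA : ∀ K : Set ℕ, (∀ k ∈ K, 1 ≤ k) → (∀ m, 1 ≤ m → Suffices K m) → ∀ f, SignMul f →
      ((∀ μ, IsFurst f μ ↔ μ = bern) ↔ ∀ H : Finset ℕ, H.card ∈ K → Tendsto (corr f H) atTop (𝓝 0)) := by
    intro K hK hS f hf
    rw [Q132.FU.unique_iff hf]
    constructor
    · intro h H hH
      have h1 := Q132.FU.corr_of_furst hf h (H := H) (Finset.card_pos.1 (hK _ hH))
      exact h1.congr fun N => corr_eq f H N
    · intro h
      refine unique_of_corr hf fun H hH => ?_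
      have h1 := suff_corr (N := fun N : ℕ => N) (l := atTop) tendsto_id (fix_abs hf) K hK H.card
        (Finset.card_pos.2 hH) (hS _ (Finset.card_pos.2 hH)) (fun H' hH' => by
          simp_rw [corr_eq]
          exact h H' hH') H rfl
      exact h1.congr fun N => corr_eq f H N
  refine ⟨fun K hK m hm hS f hf μ hμ => furst_suff hf hμ K hK m hm hS, fun K hK hS f hf μ hμ => ⟨?_, fun h => ?_⟩,
    hA, fun M hM f hf => ?_, fun f hf => ?_, nec, fun m hm he => ?_⟩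
  · rintro rfl H hH
    exact bern_moment H (Finset.card_pos.1 (hK _ hH))
  · exact furst_bern hf hμ fun H hH => furst_suff hf hμ K hK H.card (Finset.card_pos.2 hH)
      (hS _ (Finset.card_pos.2 hH)) h H rfl
  · rw [hA {k | 1 ≤ k ∧ M ∣ k} (fun k hk => hk.1) (fun m hm => suffices_mult M hM m hm) f hf]
    exact ⟨fun h H hH hM' => h H ⟨Finset.card_pos.2 hH, hM'⟩, fun h H hH => h H (Finset.card_pos.1 hH.1) hH.2⟩
  · rw [hA {k | ∃ j : ℕ, 1 ≤ j ∧ k = 2 * j.factorial} (fun k ⟨j, _, hk⟩ => by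
      rw [hk]; have := j.factorial_pos; omega) (fun m hm => suffices_fact m hm) f hf]
    exact ⟨fun h j hj H hH => h H ⟨j, hj, hH⟩, fun h H ⟨j, hj, hH⟩ => h j hj H hH⟩
  · obtain ⟨g, hg, hgK, hrest⟩ := nec _ (fun k hk => hk.1) m hm (not_odd m hm he)
    exact ⟨g, hg, fun H hH h => hgK H ⟨Finset.card_pos.2 hH, h⟩, hrest⟩

end Pool.Agent.Results.MP_4a7640_nt.OrdersThatSuffice
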