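import Pool.Agent.Q163.PW.Jor

set_option autoImplicit false

/-!
# Almost every multiplicative function is Poisson generic

Let `χ` be the random completely multiplicative function with independent fair signs at all primes, `g` any
fixed sequence of signs and `f = g χ`. For a uniform random word `W` of length `k` the number of occurrences
of `W` in `f` with starting point in `S k`, where `|S k| / 2 ^ k → λ`, is asymptotically Poisson of parameter
`λ`, for almost every `f`. Almost surely this holds for all sets `S k = {n : n / 2 ^ k ∈ U}` at once, where `U`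
is any bounded subset of `(0, ∞)` with a null boundary.
-/

namespace Pool.Agent.Results.MP_4a7640_nt.PoissonGeneric

open Finset Filter Topology MeasureTheory Pool.Agent.Q163.RP Pool.Agent.Q163.RX
  Pool.Agent.Q163.GC Pool.Agent.Q163.HC Pool.Agent.Q163.EX Pool.Agent.Q163.PW

/-- `f` is completely multiplicative with values `1` and `-1` -/
def CM (f : ℕ → ℝ) : Prop :=
  f 1 = 1 ∧ (∀ m n : ℕ, m ≠ 0 → n ≠ 0 → f (m * n) = f m * f n) ∧ ∀ n, f n = 1 ∨ f n = -1

/-- the word `W` occurs in `f` at `n` -/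
def Occurs {k : ℕ} (f : ℕ → ℝ) (W : Fin k → Bool) (n : ℕ) : Prop :=
  ∀ i : Fin k, f (n + i) = if W i then 1 else -1

/-- the proportion of the words of length `k` which occur exactly `j` times with starting point
in `S` -/
noncomputable def share (f : ℕ → ℝ) (k : ℕ) (S : Set ℕ) (j : ℕ) : ℝ :=
  ({W : Fin k → Bool | {n : ℕ | n ∈ S ∧ Occurs f W n}.ncard = j}.ncard : ℝ) / 2 ^ k

/-- the weights of the Poisson law of parameter `v` -/
noncomputable def poisson (v : ℝ) (j : ℕ) : ℝ := Real.exp (-v) * (v ^ j / j.factorial)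

/-- Poisson genericity, for all bounded sets with a null boundary -/
def PoissonGeneric (f : ℕ → ℝ) : Prop :=
  ∀ U : Set ℝ, Bornology.IsBounded U → U ⊆ Set.Ioi 0 → volume (frontier U) = 0 → ∀ j : ℕ,
    Tendsto (fun k => share f k {n : ℕ | (n : ℝ) / 2 ^ k ∈ U} j) atTop
      (𝓝 (poisson (volume U).toReal j))

lemma share_eq (f : ℕ → ℝ) (k : ℕ) (S : Finset ℕ) (j : ℕ) : share f k (S : Set ℕ) j = freq f k S j := by
  classical
  unfold share
  rw [freq_eq]
  congr 2
  have h1 : ∀ W : Fin k → Bool, {n : ℕ | n ∈ (S : Set ℕ) ∧ Occurs f W n}.ncard = (Mt S f W).card := by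
    intro W
    rw [← Set.ncard_coe_finset]
    congr 1
    ext n
    rw [mem_coe, mem_Mt]
    rfl
  rw [← Set.ncard_coe_finset]
  congr 1
  ext W
  rw [mem_coe, mem_filter]
  constructor
  · intro h
    exact ⟨mem_univ _, (h1 W).symm.trans h⟩
  · intro h
    exact (h1 W).trans h.2

lemma ch_cm (ω : ℕ → Bool) : CM (ch ω) := by
  refine ⟨Pool.Agent.Q163.RP.mult_one _, fun m n hm hn => ch_mul ω hm hn, fun n => ?_⟩
  rcases abs_eq (by norm_num : (0 : ℝ) ≤ 1) |>.1 (abs_ch ω n) with h | h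
  · exact Or.inl h
  · exact Or.inr h

theorem sets_ae (g : ℕ → ℝ) (hg : ∀ n, g n = 1 ∨ g n = -1) (D E : ℕ) (l : ℝ) (x : ℕ → ℕ)
    (S : ℕ → Finset ℕ) (hx : ∀ᶠ k : ℕ in atTop, (x k : ℝ) ≤ Real.exp ((k : ℝ) ^ E))
    (hS : ∀ᶠ k in atTop, S k ⊆ Ioc (x k) (x k + D * 2 ^ k))
    (hl : Tendsto (fun k : ℕ => ((S k).card : ℝ) / 2 ^ k) atTop (𝓝 l)) :
    ∀ᵐ ω ∂cm, ∀ j : ℕ, Tendsto (fun k => share (fun n => g n * ch ω n) k (S k : Set ℕ) j) atTop
      (𝓝 (poisson l j)) := by
  have h1 := ae_law (E + 2) D (by omega) g hg x S l (by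
    filter_upwards [hx, eventually_ge_atTop 2] with k hk hk2
    have e2 : Real.exp ((k : ℝ) ^ E) ≤ (2 : ℝ) ^ (2 * k ^ E) := by
      have e3 : Real.exp ((k : ℝ) ^ E) = Real.exp 1 ^ (k ^ E) := by
        rw [← Real.exp_nat_mul]
        push_cast
        rw [mul_one]
      rw [e3, pow_mul]
      refine pow_le_pow_left₀ (Real.exp_pos 1).le ?_ _
      have := Real.exp_one_lt_d9
      norm_num
      linarith
    have e3 : (2 : ℝ) ^ (2 * k ^ E) ≤ (2 : ℝ) ^ ((k + D) ^ (E + 2)) := by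
      refine pow_le_pow_right₀ (by norm_num) ?_
      calc 2 * k ^ E ≤ k ^ 2 * k ^ E := Nat.mul_le_mul_right _ (by nlinarith)
        _ = k ^ (E + 2) := by rw [← pow_add, add_comm]
        _ ≤ (k + D) ^ (E + 2) := Nat.pow_le_pow_left (by omega) _
    have e4 := (hk.trans e2).trans e3
    exact_mod_cast e4) (by
    filter_upwards [hS] with k hk
    refine hk.trans (Ioc_subset_Ioc_right ?_)
    refine Nat.add_le_add_left ?_ _
    rw [pow_add, mul_comm]
    exact Nat.mul_le_mul_left _ Nat.lt_two_pow_self.le) hl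
  filter_upwards [h1] with ω hω j
  refine (hω j).congr fun k => ?_
  rw [share_eq]

theorem generic_ae (g : ℕ → ℝ) (hg : ∀ n, g n = 1 ∨ g n = -1) :
    ∀ᵐ ω ∂cm, PoissonGeneric fun n => g n * ch ω n := by
  classical
  filter_upwards [ae_dS g hg] with ω hω U hb hU hf j
  have hfin : ∀ k : ℕ, {n : ℕ | (n : ℝ) / 2 ^ k ∈ U}.Finite := by
    intro k
    obtain ⟨R, hR⟩ := hb.subset_closedBall 0
    obtain ⟨B, hB⟩ := exists_nat_ge R
    refine (Set.finite_Iic (B * 2 ^ k)).subset fun n hn => ?_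
    have h1 := hR hn
    rw [mem_closedBall_zero_iff, Real.norm_eq_abs] at h1
    have h2 := ((le_abs_self _).trans h1).trans hB
    rw [div_le_iff₀ (by positivity)] at h2
    rw [Set.mem_Iic]
    exact_mod_cast h2
  have h1 := sandwich (fun n => g n * ch ω n) hω (volume U).toReal (fun k => (hfin k).toFinset) (by
    intro ε hε
    obtain ⟨m, T1, T2, q1, q2, q3, q4⟩ := jordan U hb hU hf ε hε
    refine ⟨m, T1, T2, q3, q4, ?_⟩
    filter_upwards [eventually_ge_atTop m] with k hk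
    constructor
    · intro n hn
      rw [Set.Finite.mem_toFinset]
      exact q1 ((mem_dS hk).1 hn)
    · intro n hn
      rw [Set.Finite.mem_toFinset] at hn
      exact (mem_dS hk).2 (q2 hn)) j
  refine h1.congr fun k => ?_
  rw [← share_eq, Set.Finite.coe_toFinset]

/-- **Almost every multiplicative function is Poisson generic.** -/
theorem result :
    (∀ g : ℕ → ℝ, (∀ n, g n = 1 ∨ g n = -1) → ∀ (D E : ℕ) (l : ℝ) (x : ℕ → ℕ) (S : ℕ → Finset ℕ),
      (∀ᶠ k : ℕ in atTop, (x k : ℝ) ≤ Real.exp ((k : ℝ) ^ E)) →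
      (∀ᶠ k in atTop, S k ⊆ Ioc (x k) (x k + D * 2 ^ k)) →
      Tendsto (fun k : ℕ => ((S k).card : ℝ) / 2 ^ k) atTop (𝓝 l) →
      ∀ᵐ ω ∂cm, ∀ ω' : ℕ → Bool, {p | ω' p ≠ ω p}.Finite → ∀ j : ℕ,
        Tendsto (fun k => share (fun n => g n * ch ω' n) k (S k : Set ℕ) j) atTop (𝓝 (poisson l j))) ∧
    (∀ g : ℕ → ℝ, (∀ n, g n = 1 ∨ g n = -1) →
      ∀ᵐ ω ∂cm, ∀ ω' : ℕ → Bool, {p | ω' p ≠ ω p}.Finite → PoissonGeneric fun n => g n * ch ω' n) ∧
    (∀ ω, CM (ch ω)) ∧
    ∀ g : ℕ → ℕ → ℝ, (∀ i n, g i n = 1 ∨ g i n = -1) →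
      ∃ f : ℕ → ℝ, CM f ∧ PoissonGeneric f ∧ ∀ i, PoissonGeneric fun n => g i n * f n := by
  refine ⟨fun g hg D E l x S hx hS hl => ae_fin (sets_ae g hg D E l x S hx hS hl),
    fun g hg => ae_fin (generic_ae g hg), ch_cm, fun g hg => ?_⟩
  have h1 : ∀ᵐ ω ∂cm, ∀ i, PoissonGeneric fun n => g i n * ch ω n := by
    rw [ae_all_iff]
    exact fun i => generic_ae (g i) (hg i)
  have h2 := generic_ae (fun _ => 1) fun _ => Or.inl rfl
  obtain ⟨ω, hω1, hω2⟩ := (h1.and h2).exists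
  refine ⟨ch ω, ch_cm ω, ?_, hω1⟩
  simpa only [one_mul] using hω2

end Pool.Agent.Results.MP_4a7640_nt.PoissonGeneric
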