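import Pool.Agent.Q197.PS.LG

/-! # Furstenberg systems of sign sequences and random unions of residue classes

For `f` with values `1` and `-1`, a finite set `H` of shifts and a set `A` of residues modulo `P` let
`corr f H P A N` be `1 / log N` times the sum over the `n ≤ N` with residue in `A` of
`1 / n` times the product of the `f(n + h)`, `h ∈ H`. -/

set_option autoImplicit false

open Finset Filter Topology

namespace Pool.Agent.Results.MP_4a7640_nt.UnionsOfClasses

open Q197.PS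

/-- `f` has only the values `1` and `-1`. -/
def IsSign (f : ℕ → ℝ) : Prop := ∀ n, f n = 1 ∨ f n = -1

/-- The logarithmic correlation along the `1 ≤ n ≤ N` with `n mod P ∈ A`. -/
noncomputable def corr (f : ℕ → ℝ) (H : Finset ℕ) (P : ℕ) (A : Finset ℕ) (N : ℕ) : ℝ :=
  (∑ n ∈ (Icc 1 N).filter (fun n => n % P ∈ A), (∏ h ∈ H, f (n + h)) / n) / Real.log N

/-- The logarithmic correlation along all `1 ≤ n ≤ N`. -/
noncomputable def corrAll (f : ℕ → ℝ) (H : Finset ℕ) (N : ℕ) : ℝ :=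
  (∑ n ∈ Icc 1 N, (∏ h ∈ H, f (n + h)) / n) / Real.log N

/-- The logarithmic frequency up to `N` of the sign pattern `w` of length `k`. -/
noncomputable def freq (f : ℕ → ℝ) (k : ℕ) (w : Fin k → ℝ) (N : ℕ) : ℝ :=
  (∑ n ∈ (Icc 1 N).filter (fun n => ∀ j : Fin k, f (n + j) = w j), (1 : ℝ) / n) / Real.log N

/-- `f` has a unique Furstenberg system: all logarithmic correlations converge. -/
def UniqueSystem (f : ℕ → ℝ) : Prop := ∀ H : Finset ℕ, ∃ L : ℝ, Tendsto (corrAll f H) atTop (𝓝 L)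

open Classical in
/-- The number of the sets `A` of residues modulo `P` along which the correlation converges. -/
noncomputable def convergent (f : ℕ → ℝ) (H : Finset ℕ) (P : ℕ) : ℕ :=
  ((range P).powerset.filter (fun A => ∃ L : ℝ, Tendsto (corr f H P A) atTop (𝓝 L))).card

open Classical in
/-- The number of the sets `A` of residues modulo `P` along which the correlation tends to zero. -/
noncomputable def vanishing (f : ℕ → ℝ) (H : Finset ℕ) (P : ℕ) : ℕ :=
  ((range P).powerset.filter (fun A => Tendsto (corr f H P A) atTop (𝓝 0))).card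

/-- the complex sequence -/
noncomputable def uu (f : ℕ → ℝ) (H : Finset ℕ) (n : ℕ) : ℂ := ((∏ h ∈ H, f (n + h) : ℝ) : ℂ)

lemma uu_le {f : ℕ → ℝ} (hf : IsSign f) (H : Finset ℕ) (n : ℕ) : ‖uu f H n‖ ≤ 1 := by
  unfold uu
  rw [Complex.norm_real, Real.norm_eq_abs, abs_prod]
  refine prod_le_one (fun _ _ => abs_nonneg _) fun h _ => ?_
  rcases hf (n + h) with h1 | h1 <;> rw [h1] <;> simp

lemma corr_eq (f : ℕ → ℝ) (H : Finset ℕ) (P : ℕ) (A : Finset ℕ) (N : ℕ) :
    ((corr f H P A N : ℝ) : ℂ) = mLg (uu f H) P A N := by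
  unfold corr mLg uu
  push_cast
  rfl

lemma corr_norm (f : ℕ → ℝ) (H : Finset ℕ) (P : ℕ) (A : Finset ℕ) (N : ℕ) :
    ‖mLg (uu f H) P A N‖ = |corr f H P A N| := by
  rw [← corr_eq, Complex.norm_real, Real.norm_eq_abs]

lemma corrAll_eq (f : ℕ → ℝ) (H : Finset ℕ) (N : ℕ) : corrAll f H N = corr f H 1 {0} N := by
  unfold corrAll corr
  rw [filter_true_of_mem (fun n _ => by rw [mem_singleton, Nat.mod_one])]

lemma lim_iff (f : ℕ → ℝ) (H : Finset ℕ) (P : ℕ) (A : Finset ℕ) (L : ℝ) :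
    Tendsto (corr f H P A) atTop (𝓝 L) ↔ Tendsto (mLg (uu f H) P A) atTop (𝓝 (L : ℂ)) := by
  have h : mLg (uu f H) P A = fun N => ((corr f H P A N : ℝ) : ℂ) := funext fun N => (corr_eq f H P A N).symm
  rw [h]
  constructor
  · intro h1
    exact (Complex.continuous_ofReal.tendsto L).comp h1
  · intro h1
    have h2 := (Complex.continuous_re.tendsto _).comp h1
    rw [Complex.ofReal_re] at h2
    exact h2.congr fun N => by simp only [Function.comp_apply, Complex.ofReal_re]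

lemma zero_iff (f : ℕ → ℝ) (H : Finset ℕ) (P : ℕ) (A : Finset ℕ) :
    Tendsto (corr f H P A) atTop (𝓝 0) ↔ Tendsto (mLg (uu f H) P A) atTop (𝓝 0) := by
  have := lim_iff f H P A 0
  simpa using this

lemma conv_iff' (f : ℕ → ℝ) (H : Finset ℕ) (P : ℕ) (A : Finset ℕ) :
    (∃ L : ℝ, Tendsto (corr f H P A) atTop (𝓝 L)) ↔ ConvL (uu f H) P A := by
  constructor
  · rintro ⟨L, hL⟩
    exact ⟨L, (lim_iff f H P A L).1 hL⟩
  · rintro ⟨L, hL⟩
    refine ⟨L.re, ?_⟩
    have h2 := (Complex.continuous_re.tendsto _).comp hL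
    refine h2.congr fun N => ?_
    simp only [Function.comp_apply]
    rw [← corr_eq, Complex.ofReal_re]

lemma conv_eq (f : ℕ → ℝ) (H : Finset ℕ) (P : ℕ) : convergent f H P = nCL (uu f H) P := by
  classical
  unfold convergent nCL
  simp only [conv_iff']

lemma van_eq (f : ℕ → ℝ) (H : Finset ℕ) (P : ℕ) : vanishing f H P = nLg (uu f H) P := by
  classical
  unfold vanishing nLg
  simp only [zero_iff]

lemma log_one : Tendsto (fun N : ℕ => (∑ n ∈ Icc 1 N, (1 : ℝ) / n) / Real.log N) atTop (𝓝 1) := by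
  have h1 : Tendsto (fun N : ℕ => Real.log N) atTop atTop := Real.tendsto_log_atTop.comp tendsto_natCast_atTop_atTop
  have h2 := Real.tendsto_harmonic_sub_log
  have h3 := (h2.div_atTop h1).add_const 1
  rw [zero_add] at h3
  refine h3.congr' ?_
  filter_upwards [h1.eventually_gt_atTop 0] with N hN
  have h5 : ((harmonic N : ℚ) : ℝ) = ∑ k ∈ Icc 1 N, (1 : ℝ) / k := by
    rw [harmonic_eq_sum_Icc]
    push_cast
    simp only [one_div]
  rw [h5]
  field_simp
  ring

lemma freq_eq {f : ℕ → ℝ} (hf : IsSign f) (k : ℕ) {w : Fin k → ℝ} (hw : ∀ j, w j = 1 ∨ w j = -1) (N : ℕ) :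
    freq f k w N = (1 / 2) ^ k * ∑ S ∈ (univ : Finset (Fin k)).powerset,
      (∏ j ∈ S, w j) * corrAll f (S.map Fin.valEmbedding) N := by
  classical
  have h1 : ∀ n, (∏ j : Fin k, (1 + w j * f (n + j)) / 2) = if ∀ j : Fin k, f (n + j) = w j then 1 else 0 := by
    intro n
    split_ifs with h
    · refine prod_eq_one fun j _ => ?_
      rw [h j]
      rcases hw j with h2 | h2 <;> rw [h2] <;> norm_num
    · push Not at h
      obtain ⟨j, hj⟩ := h
      refine prod_eq_zero (mem_univ j) ?_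
      rcases hw j with h2 | h2 <;> rcases hf (n + j) with h3 | h3
      · exact absurd (h3.trans h2.symm) hj
      · rw [h2, h3]
        norm_num
      · rw [h2, h3]
        norm_num
      · exact absurd (h3.trans h2.symm) hj
  have h2 : ∀ n : ℕ, (∏ j : Fin k, (1 + w j * f (n + j)) / 2) =
      (1 / 2) ^ k * ∑ S ∈ (univ : Finset (Fin k)).powerset, (∏ j ∈ S, w j) * ∏ h ∈ S.map Fin.valEmbedding, f (n + h) := by
    intro n
    have h3 : ∀ j : Fin k, (1 + w j * f (n + j)) / 2 = (1 / 2) * (w j * f (n + j) + 1) := fun j => by ring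
    simp_rw [h3]
    rw [prod_mul_distrib, prod_const, card_univ, Fintype.card_fin, prod_add_one]
    congr 1
    refine sum_congr rfl fun S _ => ?_
    rw [prod_mul_distrib, prod_map]
    rfl
  unfold freq corrAll
  rw [sum_filter]
  have h4 : ∀ n : ℕ, (if ∀ j : Fin k, f (n + j) = w j then (1 : ℝ) / n else 0) =
      (1 / 2) ^ k * ∑ S ∈ (univ : Finset (Fin k)).powerset, (∏ j ∈ S, w j) *
        ((∏ h ∈ S.map Fin.valEmbedding, f (n + h)) / n) := by
    intro n
    have h5 : (if ∀ j : Fin k, f (n + j) = w j then (1 : ℝ) / n else 0) =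
        (if ∀ j : Fin k, f (n + j) = w j then 1 else 0) / n := by
      split_ifs <;> simp
    rw [h5, ← h1, h2, mul_div_assoc, sum_div]
    congr 1
    exact sum_congr rfl fun S _ => by rw [mul_div_assoc]
  simp_rw [h4]
  rw [← mul_sum, sum_comm, mul_div_assoc, sum_div]
  congr 1
  refine sum_congr rfl fun S _ => ?_
  rw [← mul_sum, mul_div_assoc]

open Classical in
theorem result :
    (∀ f : ℕ → ℝ, IsSign f → ∀ (H : Finset ℕ) (c : ℝ), 0 < c →
      ((∃ᶠ p : ℕ × ℕ in atTop, c ≤ |corrAll f H p.1 - corrAll f H p.2|) → ∀ P : ℕ, 0 < P →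
        (convergent f H P : ℝ) ≤ 324 * (1 + 1 / c) * 2 ^ P / √P) ∧
      ((∃ᶠ N in atTop, c ≤ |corrAll f H N|) → ∀ P : ℕ, 0 < P →
        (vanishing f H P : ℝ) ≤ 162 * (1 + 1 / c) * 2 ^ P / √P)) ∧
    (∀ f : ℕ → ℝ, IsSign f →
      (∀ (H : Finset ℕ) (K : ℝ), ∃ P : ℕ, 0 < P ∧ K * 2 ^ P / √P ≤ convergent f H P) → UniqueSystem f) ∧
    (∀ f : ℕ → ℝ, IsSign f →
      (∀ H : Finset ℕ, H.Nonempty → ∀ K : ℝ, ∃ P : ℕ, 0 < P ∧ K * 2 ^ P / √P ≤ vanishing f H P) →
        ∀ (k : ℕ) (w : Fin k → ℝ), (∀ j, w j = 1 ∨ w j = -1) → Tendsto (freq f k w) atTop (𝓝 ((1 / 2) ^ k))) ∧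
    (∀ f : ℕ → ℝ, IsSign f → ∀ H : Finset ℕ,
      ((∀ q : ℕ, 0 < q → ∀ a < q, ∃ L : ℝ, Tendsto (corr f H q {a}) atTop (𝓝 L)) ↔
        ∀ q : ℕ, 0 < q → ∀ K : ℝ, ∃ P : ℕ, 0 < P ∧ q ∣ P ∧ K * 2 ^ P / √P ≤ convergent f H P)) := by
  refine ⟨fun f hf H c hc => ⟨fun hfr P hP => ?_, fun hfr P hP => ?_⟩, fun f hf hK H => ?_,
    fun f hf hK k w hw => ?_, fun f hf H => ?_⟩
  · rw [conv_eq]
    refine few_logconv (uu_le hf H) hc 1 {0} (hfr.mono fun p hp => ?_) hP (one_dvd P)
    rw [corrAll_eq, corrAll_eq] at hp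
    rw [← corr_eq, ← corr_eq, ← Complex.ofReal_sub, Complex.norm_real, Real.norm_eq_abs]
    exact hp
  · rw [van_eq]
    refine few_log (uu_le hf H) hc 1 {0} (hfr.mono fun p hp => ?_) hP (one_dvd P)
    rw [corrAll_eq] at hp
    rw [corr_norm]
    exact hp
  · have h1 := logconv_all (uu_le hf H) (fun K => by
      obtain ⟨P, hP, h2⟩ := hK H K
      exact ⟨P, hP, by rw [← conv_eq]; exact h2⟩)
    obtain ⟨L, hL⟩ := (conv_iff' f H 1 {0}).2 h1
    exact ⟨L, hL.congr fun N => (corrAll_eq f H N).symm⟩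
  · have hzero : ∀ H : Finset ℕ, H.Nonempty → Tendsto (corrAll f H) atTop (𝓝 0) := by
      intro H hH
      have h1 := log_all (uu_le hf H) (fun K => by
        obtain ⟨P, hP, h2⟩ := hK H hH K
        exact ⟨P, hP, by rw [← van_eq]; exact h2⟩)
      exact ((zero_iff f H 1 {0}).2 h1).congr fun N => (corrAll_eq f H N).symm
    have h0 : Tendsto (corrAll f ∅) atTop (𝓝 1) := by
      refine log_one.congr fun N => ?_
      unfold corrAll
      simp
    have h1 : ∀ S ∈ (univ : Finset (Fin k)).powerset, Tendsto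
        (fun N => (∏ j ∈ S, w j) * corrAll f (S.map Fin.valEmbedding) N) atTop
        (𝓝 (if S = ∅ then 1 else 0)) := by
      intro S _
      split_ifs with hS
      · rw [hS]
        simpa using h0
      · have h2 := (hzero (S.map Fin.valEmbedding) ((nonempty_iff_ne_empty.2 hS).map)).const_mul (∏ j ∈ S, w j)
        rwa [mul_zero] at h2
    have h2 := (tendsto_finsetSum _ h1).const_mul ((1 / 2 : ℝ) ^ k)
    have h3 : (1 / 2 : ℝ) ^ k * ∑ S ∈ (univ : Finset (Fin k)).powerset, (if S = ∅ then (1 : ℝ) else 0) =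
        (1 / 2) ^ k := by
      rw [sum_ite_eq' _ ∅ (fun _ => (1 : ℝ)), if_pos (mem_powerset.2 (empty_subset _)), mul_one]
    rw [h3] at h2
    exact h2.congr fun N => (freq_eq hf k hw N).symm
  · have h1 := logconv_iff (uu_le hf H)
    simp only [conv_eq, conv_iff']
    exact h1

end Pool.Agent.Results.MP_4a7640_nt.UnionsOfClasses
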